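import Mathlib
import Pool.Agent.Y142.ZD.Stm

set_option autoImplicit false

/-!
Project OI (helper282), job TYPD3: a double sign change and generic roots.
-/

open Matrix Polynomial Filter Topology
open Pool.Agent.Y142.ZO Pool.Agent.Y142.ZI Pool.Agent.Y142.ZD

namespace Pool.Agent.Q139.OI.TYPD3

variable {ℓ : ℕ} [hℓ : Fact ℓ.Prime]

/-- the algebraic closure -/
abbrev KK (ℓ : ℕ) [Fact ℓ.Prime] : Type := AlgebraicClosure ℚ_[ℓ]

/-- the norm of a square root of a uniformizer -/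
noncomputable def ρ (ℓ : ℕ) : ℝ := (Real.sqrt ℓ)⁻¹

lemma ρ_pos : 0 < ρ ℓ := by
  have := hℓ.out.pos
  unfold ρ
  positivity

lemma ρ_sq : ρ ℓ ^ 2 = (ℓ : ℝ)⁻¹ := by
  unfold ρ
  rw [inv_pow, Real.sq_sqrt (Nat.cast_nonneg _)]

lemma ρ_lt : ρ ℓ < 1 := by
  have h1 := hℓ.out.one_lt
  unfold ρ
  apply inv_lt_one_of_one_lt₀
  rw [Real.lt_sqrt (by norm_num)]
  simpa using (by exact_mod_cast h1 : (1 : ℝ) < ℓ)

lemma ρ_inj {a b : ℕ} (h : ρ ℓ ^ a = ρ ℓ ^ b) : a = b :=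
  (pow_right_injective₀ ρ_pos ρ_lt.ne) h

lemma norm_alg (x : ℚ_[ℓ]) : ‖algebraMap ℚ_[ℓ] (KK ℓ) x‖ = ‖x‖ := PadicAlgCl.norm_extends ℓ x

lemma norm_nat (i : ℕ) : ‖((i : ℕ) : KK ℓ)‖ = ‖(i : ℚ_[ℓ])‖ := by
  have h := norm_alg (i : ℚ_[ℓ])
  rw [← h]
  congr 1

lemma norm_ell : ‖algebraMap ℚ_[ℓ] (KK ℓ) (ℓ : ℚ_[ℓ])‖ = ρ ℓ ^ 2 := by
  rw [norm_alg, Padic.norm_p, ρ_sq]

lemma norm_root {w : KK ℓ} {u : ℚ_[ℓ]} (hw : w ^ 2 = algebraMap ℚ_[ℓ] (KK ℓ) u)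
    (hu : ‖u‖ = (ℓ : ℝ)⁻¹) : ‖w‖ = ρ ℓ := by
  have h1 : ‖w‖ ^ 2 = ρ ℓ ^ 2 := by
    rw [← norm_pow, hw, norm_alg, hu, ρ_sq]
  exact (pow_left_inj₀ (norm_nonneg _) ρ_pos.le (by norm_num)).1 h1

/-- the norm exponents -/
def ee {m : ℕ} : Fin m ⊕ Bool → ℕ := Sum.elim (fun i => 4 * (i : ℕ) + 8) (fun b => if b then 1 else 5)

lemma ee_inj {m : ℕ} : Function.Injective (ee (m := m)) := by
  rintro (i | b) (j | c) h
  · simp only [ee, Sum.elim_inl] at h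
    congr 1
    ext
    omega
  · cases c <;> simp [ee] at h
  · cases b <;> simp [ee] at h
  · cases b <;> cases c <;> simp [ee] at h ⊢

lemma ee_gap {m : ℕ} (i j : Fin m ⊕ Bool) : ee i + 2 ≠ ee j := by
  rcases i with i | b <;> rcases j with j | c
  · simp only [ee, Sum.elim_inl]; omega
  · cases c <;> simp [ee]
  · cases b <;> simp [ee] <;> omega
  · cases b <;> cases c <;> simp [ee]

/-- the positive roots -/
noncomputable def vv {m : ℕ} (w₁ w₂ : KK ℓ) : Fin m ⊕ Bool → KK ℓ :=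
  Sum.elim (fun i => algebraMap ℚ_[ℓ] (KK ℓ) ((ℓ : ℚ_[ℓ]) ^ (2 * (i : ℕ) + 4)))
    (fun b => if b then w₁ else algebraMap ℚ_[ℓ] (KK ℓ) ((ℓ : ℚ_[ℓ]) ^ 2) * w₂)

lemma norm_vv {m : ℕ} {w₁ w₂ : KK ℓ} (h1 : ‖w₁‖ = ρ ℓ) (h2 : ‖w₂‖ = ρ ℓ) (j : Fin m ⊕ Bool) :
    ‖vv w₁ w₂ j‖ = ρ ℓ ^ ee j := by
  rcases j with i | b
  · simp only [vv, ee, Sum.elim_inl]
    rw [map_pow, norm_pow, norm_ell, ← pow_mul]
    congr 1
    ring
  · cases b
    · simp only [vv, ee, Sum.elim_inr, Bool.false_eq_true, if_false]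
      rw [map_pow, norm_mul, norm_pow, norm_ell, h2]
      ring
    · simp only [vv, ee, Sum.elim_inr, if_true, h1, pow_one]

/-- `x` is a root of norm exponent `n` -/
def E {m : ℕ} (v : Fin m ⊕ Bool → KK ℓ) (x : KK ℓ) (n : ℕ) : Prop :=
  ∃ j, ee j = n ∧ (x = v j ∨ x = -v j)

section gen

variable {m : ℕ} {v : Fin m ⊕ Bool → KK ℓ} (hv : ∀ j, ‖v j‖ = ρ ℓ ^ ee j)

include hv

lemma E_norm {x : KK ℓ} {n : ℕ} (h : E v x n) : ‖x‖ = ρ ℓ ^ n := by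
  obtain ⟨j, rfl, rfl | rfl⟩ := h
  · exact hv j
  · rw [norm_neg]; exact hv j

omit hv in
lemma E_neg {x : KK ℓ} {n : ℕ} (h : E v x n) : E v (-x) n := by
  obtain ⟨j, rfl, rfl | rfl⟩ := h
  · exact ⟨j, rfl, Or.inr rfl⟩
  · exact ⟨j, rfl, Or.inl (neg_neg _)⟩

omit hv in
lemma E_same {x y : KK ℓ} {n : ℕ} (h : E v x n) (h' : E v y n) : x = y ∨ x + y = 0 := by
  obtain ⟨j, hj, hx⟩ := h
  obtain ⟨j', hj', hy⟩ := h'
  have : j = j' := ee_inj (hj.trans hj'.symm)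
  subst this
  rcases hx with rfl | rfl <;> rcases hy with rfl | rfl
  · exact Or.inl rfl
  · exact Or.inr (by ring)
  · exact Or.inr (by ring)
  · exact Or.inl rfl

omit hv in
lemma E_gap {x y : KK ℓ} {n k : ℕ} (h : E v x n) (h' : E v y k) : n + 2 ≠ k := by
  obtain ⟨j, rfl, -⟩ := h
  obtain ⟨j', rfl, -⟩ := h'
  exact ee_gap _ _

lemma E_ne {x : KK ℓ} {n : ℕ} (h : E v x n) : x ≠ 0 := by
  intro h0
  have := E_norm hv h
  rw [h0, norm_zero] at this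
  have := pow_pos (ρ_pos (ℓ := ℓ)) n
  linarith

lemma norm_two (h2 : ℓ ≠ 2) : ‖(2 : KK ℓ)‖ = 1 := by
  have h := norm_nat (ℓ := ℓ) 2
  have h' : ‖((2 : ℕ) : ℚ_[ℓ])‖ = 1 := by
    rw [Padic.norm_natCast_eq_one_iff]
    exact (Nat.coprime_primes hℓ.out Nat.prime_two).2 h2
  rw [h'] at h
  exact_mod_cast h

lemma add_norm (h2 : ℓ ≠ 2) {x y : KK ℓ} {a b : ℕ} (hx : E v x a) (hy : E v y b)
    (h0 : x + y ≠ 0) : ‖x + y‖ = ρ ℓ ^ min a b := by
  have nx := E_norm hv hx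
  have ny := E_norm hv hy
  rcases lt_trichotomy a b with h | h | h
  · have hlt : ‖y‖ < ‖x‖ := by
      rw [nx, ny]
      exact pow_lt_pow_right_of_lt_one₀ ρ_pos ρ_lt h
    rw [IsUltrametricDist.norm_add_eq_max_of_norm_ne_norm hlt.ne', max_eq_left hlt.le, nx,
      min_eq_left h.le]
  · subst h
    rcases E_same hx hy with h | h
    · subst h
      rw [← two_mul, norm_mul, norm_two hv h2, one_mul, nx, min_self]
    · exact absurd h h0
  · have hlt : ‖x‖ < ‖y‖ := by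
      rw [nx, ny]
      exact pow_lt_pow_right_of_lt_one₀ ρ_pos ρ_lt h
    rw [IsUltrametricDist.norm_add_eq_max_of_norm_ne_norm hlt.ne, max_eq_right hlt.le, ny,
      min_eq_right h.le]

lemma no_three (h2 : ℓ ≠ 2) {x y : KK ℓ} {a b : ℕ} (hx : E v x a) (hy : E v y b)
    (h : y + 3 * x = 0) : False := by
  have nx := E_norm hv hx
  have ny := E_norm hv hy
  have h' : y = -(3 * x) := by linear_combination h
  have h3 := norm_nat (ℓ := ℓ) 3
  have hn : ‖y‖ = ‖(3 : KK ℓ)‖ * ‖x‖ := by rw [h', norm_neg, norm_mul]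
  by_cases hl : ℓ = 3
  · have h4 : ‖(3 : KK ℓ)‖ = ρ ℓ ^ 2 := by
      have h5 : ‖((3 : ℕ) : ℚ_[ℓ])‖ = (ℓ : ℝ)⁻¹ := by
        have h6 : ((3 : ℕ) : ℚ_[ℓ]) = ((ℓ : ℕ) : ℚ_[ℓ]) :=
          congrArg (fun n : ℕ => (n : ℚ_[ℓ])) hl.symm
        rw [h6]
        exact Padic.norm_p
      rw [h5, ← ρ_sq] at h3
      exact_mod_cast h3
    rw [h4, nx, ny, ← pow_add] at hn
    have := ρ_inj hn
    exact E_gap hx hy (by omega)
  · have h4 : ‖(3 : KK ℓ)‖ = 1 := by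
      have h5 : ‖((3 : ℕ) : ℚ_[ℓ])‖ = 1 := by
        rw [Padic.norm_natCast_eq_one_iff]
        exact (Nat.coprime_primes hℓ.out Nat.prime_three).2 hl
      rw [h5] at h3
      exact_mod_cast h3
    rw [h4, nx, ny, one_mul] at hn
    have hab := ρ_inj hn
    subst hab
    rcases E_same hx hy with h5 | h5
    · subst h5
      have h6 : (4 : KK ℓ) * x = 0 := by linear_combination h
      rcases mul_eq_zero.1 h6 with h7 | h7
      · norm_num at h7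
      · exact E_ne hv hx h7
    · have h6 : (2 : KK ℓ) * x = 0 := by linear_combination h - h5
      rcases mul_eq_zero.1 h6 with h7 | h7
      · norm_num at h7
      · exact E_ne hv hx h7

lemma four (h2 : ℓ ≠ 2) {x₁ x₂ x₃ x₄ : KK ℓ} {n₁ n₂ n₃ n₄ : ℕ} (h₁ : E v x₁ n₁) (h₂ : E v x₂ n₂)
    (h₃ : E v x₃ n₃) (h₄ : E v x₄ n₄) (hs : x₁ + x₂ + x₃ + x₄ = 0) :
    x₁ + x₂ = 0 ∨ x₁ + x₃ = 0 ∨ x₁ + x₄ = 0 := by
  by_contra hcon
  push Not at hcon
  obtain ⟨c2, c3, c4⟩ := hcon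
  have d2 : x₃ + x₄ ≠ 0 := fun h => c2 (by linear_combination hs - h)
  have d3 : x₂ + x₄ ≠ 0 := fun h => c3 (by linear_combination hs - h)
  have d4 : x₂ + x₃ ≠ 0 := fun h => c4 (by linear_combination hs - h)
  have e2 : min n₁ n₂ = min n₃ n₄ := by
    apply ρ_inj (ℓ := ℓ)
    rw [← add_norm hv h2 h₁ h₂ c2, ← add_norm hv h2 h₃ h₄ d2, ← norm_neg (x₃ + x₄)]
    congr 1
    linear_combination hs
  have e3 : min n₁ n₃ = min n₂ n₄ := by
    apply ρ_inj (ℓ := ℓ)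
    rw [← add_norm hv h2 h₁ h₃ c3, ← add_norm hv h2 h₂ h₄ d3, ← norm_neg (x₂ + x₄)]
    congr 1
    linear_combination hs
  have e4 : min n₁ n₄ = min n₂ n₃ := by
    apply ρ_inj (ℓ := ℓ)
    rw [← add_norm hv h2 h₁ h₄ c4, ← add_norm hv h2 h₂ h₃ d4, ← norm_neg (x₂ + x₃)]
    congr 1
    linear_combination hs
  have hcases : (n₁ = n₂ ∧ n₂ = n₃) ∨ (n₁ = n₂ ∧ n₂ = n₄) ∨ (n₁ = n₃ ∧ n₃ = n₄) ∨
      (n₂ = n₃ ∧ n₃ = n₄) := by omega
  rcases hcases with ⟨rfl, rfl⟩ | ⟨rfl, rfl⟩ | ⟨rfl, rfl⟩ | ⟨rfl, rfl⟩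
  · have q1 := (E_same h₁ h₂).resolve_right c2
    have q2 := (E_same h₁ h₃).resolve_right c3
    subst q1 q2
    exact no_three hv h2 h₁ h₄ (by linear_combination hs)
  · have q1 := (E_same h₁ h₂).resolve_right c2
    have q2 := (E_same h₁ h₄).resolve_right c4
    subst q1 q2
    exact no_three hv h2 h₁ h₃ (by linear_combination hs)
  · have q1 := (E_same h₁ h₃).resolve_right c3
    have q2 := (E_same h₁ h₄).resolve_right c4
    subst q1 q2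
    exact no_three hv h2 h₁ h₂ (by linear_combination hs)
  · have q1 := (E_same h₂ h₃).resolve_right d4
    have q2 := (E_same h₂ h₄).resolve_right d3
    subst q1 q2
    exact no_three hv h2 h₂ h₁ (by linear_combination hs)

end gen

lemma prod_split {F J : Type} [Field F] [Fintype J] (v : J → F) :
    (∏ j : J, ((X - C (v j)) * (X - C (-v j))) : F[X]) =
      ∏ j : J ⊕ J, (X - C (Sum.elim v (fun i => -v i) j)) := by
  rw [Fintype.prod_sum_type (fun j : J ⊕ J => (X - C (Sum.elim v (fun i => -v i) j) : F[X])),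
    Finset.prod_mul_distrib]
  simp only [Sum.elim_inl, Sum.elim_inr]

/-- the polynomial over the algebraic closure -/
lemma map_RA {m : ℕ} {u₁ u₂ : ℚ_[ℓ]} {w₁ w₂ : KK ℓ} (hw₁ : w₁ ^ 2 = algebraMap ℚ_[ℓ] (KK ℓ) u₁)
    (hw₂ : w₂ ^ 2 = algebraMap ℚ_[ℓ] (KK ℓ) u₂) :
    (RA (u₁ * 1 ^ 2) (u₂ * ((ℓ : ℚ_[ℓ]) ^ 2) ^ 2)
      (diagonal fun i : Fin m => (ℓ : ℚ_[ℓ]) ^ (2 * (i : ℕ) + 4))).map (algebraMap ℚ_[ℓ] (KK ℓ)) =
    ∏ j : Fin m ⊕ Bool, ((X - C (vv w₁ w₂ j)) * (X - C (-vv w₁ w₂ j))) := by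
  unfold RA
  rw [Matrix.diagonal_neg, charpoly_diagonal, charpoly_diagonal, Fintype.prod_sum_type,
    Fintype.prod_bool, Finset.prod_mul_distrib]
  simp only [Polynomial.map_mul, Polynomial.map_prod, Polynomial.map_sub, Polynomial.map_pow,
    map_X, map_C, vv, Sum.elim_inl, Sum.elim_inr, Bool.false_eq_true, if_false, if_true]
  have e1 : (X ^ 2 - C (algebraMap ℚ_[ℓ] (KK ℓ) (u₁ * 1 ^ 2)) : (KK ℓ)[X]) =
      (X - C w₁) * (X - C (-w₁)) := by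
    rw [one_pow, mul_one, ← hw₁]
    simp only [map_pow, map_neg]
    ring
  have e2 : (X ^ 2 - C (algebraMap ℚ_[ℓ] (KK ℓ) (u₂ * ((ℓ : ℚ_[ℓ]) ^ 2) ^ 2)) : (KK ℓ)[X]) =
      (X - C (algebraMap ℚ_[ℓ] (KK ℓ) ((ℓ : ℚ_[ℓ]) ^ 2) * w₂)) *
        (X - C (-(algebraMap ℚ_[ℓ] (KK ℓ) ((ℓ : ℚ_[ℓ]) ^ 2) * w₂))) := by
    rw [map_mul (algebraMap ℚ_[ℓ] (KK ℓ)), ← hw₂]
    simp only [map_pow, map_neg, map_mul]
    ring
  rw [e1, e2]
  simp only [map_neg]
  ring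

theorem t : S_TYPD3 := by
  intro ℓ _ h2 m hm u₁ u₂ hu₁ hu₂
  obtain ⟨w₁, hw₁⟩ := IsAlgClosed.exists_pow_nat_eq (algebraMap ℚ_[ℓ] (KK ℓ) u₁) (n := 2) (by norm_num)
  obtain ⟨w₂, hw₂⟩ := IsAlgClosed.exists_pow_nat_eq (algebraMap ℚ_[ℓ] (KK ℓ) u₂) (n := 2) (by norm_num)
  have n1 := norm_root hw₁ hu₁
  have n2 := norm_root hw₂ hu₂
  set A : Matrix (Fin m) (Fin m) ℚ_[ℓ] := diagonal fun i : Fin m => (ℓ : ℚ_[ℓ]) ^ (2 * (i : ℕ) + 4)
    with hA
  have hmap := map_RA (m := m) hw₁ hw₂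
  set v : Fin m ⊕ Bool → KK ℓ := vv w₁ w₂ with hvdef
  have hv : ∀ j, ‖v j‖ = ρ ℓ ^ ee j := norm_vv n1 n2
  have hl0 : (ℓ : ℚ_[ℓ]) ≠ 0 := by
    have := (Fact.out : ℓ.Prime).ne_zero
    exact_mod_cast this
  -- the roots
  have hroot : ∀ x : KK ℓ, aeval x (RA (u₁ * 1 ^ 2) (u₂ * ((ℓ : ℚ_[ℓ]) ^ 2) ^ 2) A) = 0 ↔
      ∃ j, x = v j ∨ x = -v j := by
    intro x
    rw [← Polynomial.eval_map_algebraMap, hmap, Polynomial.eval_prod, Finset.prod_eq_zero_iff]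
    constructor
    · rintro ⟨j, -, hj⟩
      refine ⟨j, ?_⟩
      rw [eval_mul, eval_sub, eval_sub, eval_X, eval_C, eval_C] at hj
      rcases mul_eq_zero.1 hj with h | h
      · exact Or.inl (sub_eq_zero.1 h)
      · exact Or.inr (sub_eq_zero.1 h)
    · rintro ⟨j, hj⟩
      refine ⟨j, Finset.mem_univ _, ?_⟩
      rw [eval_mul, eval_sub, eval_sub, eval_X, eval_C, eval_C]
      rcases hj with h | h
      · rw [h]; ring
      · rw [h]; ring
  have hE : ∀ x : KK ℓ, aeval x (RA (u₁ * 1 ^ 2) (u₂ * ((ℓ : ℚ_[ℓ]) ^ 2) ^ 2) A) = 0 →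
      ∃ n, E v x n := by
    intro x hx
    obtain ⟨j, hj⟩ := (hroot x).1 hx
    exact ⟨ee j, j, rfl, hj⟩
  have hinj : ∀ i j, ‖v i‖ = ‖v j‖ → i = j := by
    intro i j h
    rw [hv, hv] at h
    exact ee_inj (ρ_inj h)
  refine ⟨1, (ℓ : ℚ_[ℓ]) ^ 2, A, one_ne_zero, pow_ne_zero _ hl0, ?_, ?_, ?_, ?_⟩
  · -- separable
    rw [← Polynomial.separable_map (algebraMap ℚ_[ℓ] (KK ℓ)), hmap]
    rw [prod_split, separable_prod_X_sub_C_iff]
    have hneg : ∀ i j, v i ≠ -v j := by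
      intro i j h
      have h1 : i = j := hinj i j (by rw [h, norm_neg])
      subst h1
      have h3 : (2 : KK ℓ) * v i = 0 := by linear_combination h
      rcases mul_eq_zero.1 h3 with h4 | h4
      · norm_num at h4
      · exact E_ne hv (⟨i, rfl, Or.inl rfl⟩ : E v (v i) (ee i)) h4
    rintro (i | i) (j | j) h
    · simp only [Sum.elim_inl] at h
      rw [hinj i j (by rw [h])]
    · simp only [Sum.elim_inl, Sum.elim_inr] at h
      exact absurd h (hneg i j)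
    · simp only [Sum.elim_inl, Sum.elim_inr] at h
      exact absurd h.symm (hneg j i)
    · simp only [Sum.elim_inr] at h
      rw [hinj i j (by rw [neg_inj.1 h])]
  · -- generic
    intro a b c d ha hb hc hd hab hsum
    obtain ⟨na, ha⟩ := hE a ha
    obtain ⟨nb, hb⟩ := hE b hb
    obtain ⟨nc, hc⟩ := hE c hc
    obtain ⟨nd, hd⟩ := hE d hd
    rcases four hv h2 ha hd (E_neg hc) (E_neg hb) (by linear_combination hsum) with h | h | h
    · exact Or.inr ⟨by linear_combination h - hsum, by linear_combination h⟩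
    · exact Or.inl ⟨by linear_combination -h, by linear_combination hsum - h⟩
    · exact absurd (by linear_combination h) hab
  · -- a root in the base field
    refine ⟨(ℓ : ℚ_[ℓ]) ^ (2 * ((⟨0, hm⟩ : Fin m) : ℕ) + 4), ?_⟩
    have h1 := (hroot (algebraMap ℚ_[ℓ] (KK ℓ) ((ℓ : ℚ_[ℓ]) ^ (2 * ((⟨0, hm⟩ : Fin m) : ℕ) + 4)))).2
      ⟨Sum.inl ⟨0, hm⟩, Or.inl rfl⟩
    rw [aeval_algebraMap_apply] at h1
    have h3 := (map_eq_zero_iff _ (algebraMap ℚ_[ℓ] (KK ℓ)).injective).1 h1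
    simpa using h3
  · intro L τ hL hτ
    have hfix : ∀ c : ℚ_[ℓ], τ (algebraMap ℚ_[ℓ] (KK ℓ) c) = algebraMap ℚ_[ℓ] (KK ℓ) c := by
      intro c
      rw [IsScalarTower.algebraMap_apply ℚ_[ℓ] (NR ℓ) (KK ℓ)]
      exact τ.commutes _
    have hsign : ∀ (w : KK ℓ) (u : ℚ_[ℓ]), w ^ 2 = algebraMap ℚ_[ℓ] (KK ℓ) u → ‖u‖ = (ℓ : ℝ)⁻¹ →
        τ w = -w := by
      intro w u hw hu
      have h1 : τ w ^ 2 = w ^ 2 := by rw [← map_pow, hw, hfix]
      have hw0 : w ≠ 0 := by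
        intro h0
        have := norm_root hw hu
        rw [h0, norm_zero] at this
        have := ρ_pos (ℓ := ℓ)
        linarith
      rcases sq_eq_sq_iff_eq_or_eq_neg.1 h1 with h3 | h3
      · exfalso
        obtain ⟨k, hk⟩ := hτ 2 u w (-w) hL hu hw (by rw [neg_sq, hw])
        have h4 : ∀ k : ℕ, (τ ^ k) w = w := by
          intro k
          induction k with
          | zero => rfl
          | succ k ih => rw [pow_succ, AlgEquiv.mul_apply, h3, ih]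
        rw [h4 k] at hk
        have h5 : (2 : KK ℓ) * w = 0 := by linear_combination hk
        rcases mul_eq_zero.1 h5 with h6 | h6
        · norm_num at h6
        · exact hw0 h6
      · exact h3
    have s1 : τ (v (Sum.inr true)) = -v (Sum.inr true) := by
      have : v (Sum.inr true) = w₁ := by simp [hvdef, vv]
      rw [this]
      exact hsign w₁ u₁ hw₁ hu₁
    have s2 : τ (v (Sum.inr false)) = -v (Sum.inr false) := by
      have : v (Sum.inr false) = algebraMap ℚ_[ℓ] (KK ℓ) ((ℓ : ℚ_[ℓ]) ^ 2) * w₂ := by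
        simp [hvdef, vv]
      rw [this, map_mul, hfix, hsign w₂ u₂ hw₂ hu₂]
      ring
    refine ⟨v (Sum.inr true), v (Sum.inr false), (hroot _).2 ⟨_, Or.inl rfl⟩,
      (hroot _).2 ⟨_, Or.inl rfl⟩, ?_, ?_, s1, s2, ?_⟩
    · intro h
      have := hinj _ _ (congrArg norm h)
      simp at this
    · intro h
      have h3 : ‖v (Sum.inr false)‖ = ‖v (Sum.inr true)‖ := by rw [h, norm_neg]
      have := hinj _ _ h3
      simp at this
    · intro z hz z1 z2 z3 z4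
      obtain ⟨j, hj⟩ := (hroot z).1 hz
      rcases j with i | b
      · have h3 : τ (v (Sum.inl i)) = v (Sum.inl i) := by
          have : v (Sum.inl i) = algebraMap ℚ_[ℓ] (KK ℓ) ((ℓ : ℚ_[ℓ]) ^ (2 * (i : ℕ) + 4)) := rfl
          rw [this]
          exact hfix _
        rcases hj with rfl | rfl
        · exact h3
        · rw [map_neg, h3]
      · cases b
        · rcases hj with h | h
          · exact absurd h z3
          · exact absurd h z4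
        · rcases hj with h | h
          · exact absurd h z1
          · exact absurd h z2

end Pool.Agent.Q139.OI.TYPD3
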